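import Pool.Agent.Y690.PP.Stm2

/-!
# Project PP, part 2: invariance under the sign and conjugation
-/

set_option autoImplicit false

open Finset

namespace Pool.Agent.Y259.PP

open Pool.Agent.Y690.PP Pool.Agent.Y690.PP.Fn

/-- the fourth root of unity -/
def ii : G := ⟨0, 1⟩

lemma ii_sq : ii * ii = -1 := by decide

lemma qs_neg (p D : G) : qs p (-D) = qs p D := by
  classical
  unfold qs
  have h1 : p ∣ -D ↔ p ∣ D := dvd_neg
  have h2 : (∃ b : G, p ∣ b * b - -D) ↔ ∃ b : G, p ∣ b * b - D := by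
    constructor
    · rintro ⟨b, h⟩
      refine ⟨ii * b, ?_⟩
      have h3 : ii * b * (ii * b) - D = -(b * b - -D) := by
        have : ii * b * (ii * b) = (ii * ii) * (b * b) := by ring
        rw [this, ii_sq]
        ring
      rw [h3]
      exact (dvd_neg).mpr h
    · rintro ⟨b, h⟩
      refine ⟨ii * b, ?_⟩
      have h3 : ii * b * (ii * b) - -D = -(b * b - D) := by
        have : ii * b * (ii * b) = (ii * ii) * (b * b) := by ring
        rw [this, ii_sq]
        ring
      rw [h3]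
      exact (dvd_neg).mpr h
  by_cases h3 : p ∣ D
  · rw [if_pos (h1.mpr h3), if_pos h3]
  · rw [if_neg (fun h => h3 (h1.mp h)), if_neg h3]
    by_cases h4 : ∃ b : G, p ∣ b * b - D
    · rw [if_pos (h2.mpr h4), if_pos h4]
    · rw [if_neg (fun h => h4 (h2.mp h)), if_neg h4]

lemma star_dvd (a b : G) : star a ∣ b ↔ a ∣ star b := by
  constructor
  · rintro ⟨c, h⟩
    refine ⟨star c, ?_⟩
    rw [h, star_mul', star_star]
  · rintro ⟨c, h⟩
    refine ⟨star c, ?_⟩
    rw [← star_mul', ← h, star_star]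

lemma qs_star (p D : G) : qs (star p) D = qs p (star D) := by
  classical
  unfold qs
  have h1 : star p ∣ D ↔ p ∣ star D := star_dvd p D
  have h2 : (∃ b : G, star p ∣ b * b - D) ↔ ∃ b : G, p ∣ b * b - star D := by
    constructor
    · rintro ⟨b, h⟩
      refine ⟨star b, ?_⟩
      rw [star_dvd, star_sub, star_mul'] at h
      exact h
    · rintro ⟨b, h⟩
      refine ⟨star b, ?_⟩
      rw [star_dvd, star_sub, star_mul', star_star]
      exact h
  by_cases h3 : p ∣ star D
  · rw [if_pos (h1.mpr h3), if_pos h3]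
  · rw [if_neg (fun h => h3 (h1.mp h)), if_neg h3]
    by_cases h4 : ∃ b : G, p ∣ b * b - star D
    · rw [if_pos (h2.mpr h4), if_pos h4]
    · rw [if_neg (fun h => h4 (h2.mp h)), if_neg h4]

lemma prime_star {p : G} (hp : Prime p) : Prime (star p) :=
  (MulEquiv.prime_iff (starRingAut (R := G)).toMulEquiv).mpr hp

lemma prm_star {p : G} (hp : Prm p) : Prm (star p) := by
  obtain ⟨c, hc⟩ := hp
  refine ⟨⟨0, -1⟩ * star c, ?_⟩
  have h1 : star (p - 1) = star (⟨2, 2⟩ : G) * star c := by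
    rw [hc, star_mul']
  have h2 : star (⟨2, 2⟩ : G) = ⟨2, 2⟩ * ⟨0, -1⟩ := by decide
  rw [star_sub, star_one, h2] at h1
  rw [h1, mul_assoc]

/-- conjugation of the primes -/
def sP (p : Pr) : Pr := ⟨star p.1, prime_star p.2.1, prm_star p.2.2⟩

/-- conjugation of the primes -/
def eP : Pr ≃ Pr where
  toFun := sP
  invFun := sP
  left_inv _ := Subtype.ext (star_star _)
  right_inv _ := Subtype.ext (star_star _)

lemma eP_coe (p : Pr) : (eP p).1 = star p.1 := rfl

lemma isL_neg {D : G} {a b : ℕ} {L : ℂ → ℂ} (h : IsLFunction D a b L) :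
    IsLFunction (-D) a b L := by
  refine ⟨h.1, fun s hs => ?_⟩
  have h1 := h.2 s hs
  have h2 : (fun p : Pr => (1 - (qs p.1 (-D) : ℂ) * (p.1 : ℂ) ^ a *
      (starRingEnd ℂ) (p.1 : ℂ) ^ b * ((p.1.norm : ℤ) : ℂ) ^ (-s))⁻¹) =
      fun p : Pr => (1 - (qs p.1 D : ℂ) * (p.1 : ℂ) ^ a *
      (starRingEnd ℂ) (p.1 : ℂ) ^ b * ((p.1.norm : ℤ) : ℂ) ^ (-s))⁻¹ := by
    funext p
    rw [qs_neg]
  rw [h2]
  exact h1

lemma isL_star {D : G} {a b : ℕ} {L : ℂ → ℂ} (h : IsLFunction D b a L) :
    IsLFunction (star D) a b L := by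
  refine ⟨h.1, fun s hs => ?_⟩
  have h1 := h.2 s (by rw [add_comm (b : ℝ) a]; exact hs)
  rw [← Equiv.hasProd_iff eP] at h1
  have h2 : (fun p : Pr => (1 - (qs p.1 (star D) : ℂ) * (p.1 : ℂ) ^ a *
      (starRingEnd ℂ) (p.1 : ℂ) ^ b * ((p.1.norm : ℤ) : ℂ) ^ (-s))⁻¹) =
      (fun p : Pr => (1 - (qs p.1 D : ℂ) * (p.1 : ℂ) ^ b *
      (starRingEnd ℂ) (p.1 : ℂ) ^ a * ((p.1.norm : ℤ) : ℂ) ^ (-s))⁻¹) ∘ eP := by
    funext p
    rw [Function.comp_apply, eP_coe, qs_star, Zsqrtd.norm_conj, GaussianInt.toComplex_star,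
      Complex.conj_conj]
    congr 2
    ring
  rw [h2]
  exact h1

lemma goodP_neg {D : G} (h : GoodP D) : GoodP (-D) := by
  intro x y hxy
  have h2 : (algebraMap G (FractionRing G) ii) * algebraMap G (FractionRing G) ii = -1 := by
    rw [← map_mul, ii_sq, map_neg, map_one]
  have h1 : algebraMap G (FractionRing G) D * (algebraMap G (FractionRing G) ii * y) ^ 2 =
      x ^ 3 - x := by
    rw [← hxy, map_neg, mul_pow, pow_two (algebraMap G (FractionRing G) ii), h2]
    ring
  have h3 := h x _ h1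
  rcases mul_eq_zero.mp h3 with h4 | h4
  · rw [h4] at h2
    exfalso
    have : (0 : FractionRing G) = -1 := by rw [← h2]; ring
    have h5 : (1 : FractionRing G) = 0 := by
      calc (1 : FractionRing G) = - -1 := by ring
        _ = 0 := by rw [← this]; ring
    exact one_ne_zero h5
  · exact h4

/-- conjugation of the field of fractions -/
noncomputable def cK : FractionRing G ≃+* FractionRing G :=
  IsFractionRing.ringEquivOfRingEquiv (A := G) (B := G) (K := FractionRing G)
    (L := FractionRing G) (starRingAut (R := G))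

lemma cK_alg (z : G) : cK (algebraMap G (FractionRing G) z) =
    algebraMap G (FractionRing G) (star z) :=
  IsFractionRing.ringEquivOfRingEquiv_algebraMap _ _

lemma goodP_star {D : G} (h : GoodP D) : GoodP (star D) := by
  intro x y hxy
  have h1 := congrArg cK hxy
  rw [map_mul, cK_alg, star_star, map_pow, map_sub, map_pow] at h1
  have h2 := h _ _ h1
  exact (map_eq_zero_iff cK cK.injective).mp h2

/-- INV -/
theorem t_INV : SINV := by
  refine ⟨fun D h k a b hk hab => ?_, fun D h k a b hk hab => ?_, fun D h => goodP_neg h,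
    fun D h => goodP_star h⟩
  · obtain ⟨L, hL, h0⟩ := h k a b hk hab
    exact ⟨L, isL_neg hL, h0⟩
  · obtain ⟨L, hL, h0⟩ := h k b a hk (by rw [add_comm]; exact hab)
    exact ⟨L, isL_star hL, h0⟩

end Pool.Agent.Y259.PP
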