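import Pool.Agent.Y690.PP.Stm2
import Pool.Agent.Y690.PP.Tr

/-!
# Project PP, part 2: the condition on the kernel in terms of subsets
-/

set_option autoImplicit false

open Finset

namespace Pool.Agent.Y259.PP

open Pool.Agent.Y690.PP Pool.Agent.Y690.PP.Fn

open Classical in
/-- KER -/
theorem t_KER : SKER := by
  intro A hA W hV hc1 hc2
  set ν : A → ZMod 2 := fun p => if (p : Pr) ∈ W then 1 else 0 with hν
  have hcc : ∀ p : A, cc gs gt A ν p =
      if (p : Pr) ∈ W then gt p * ∏ q ∈ A \ W, gs q p else ∏ q ∈ W, gs q p := by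
    intro p
    have h2 := prod_ind A W hV (fun q => gs q p) (ν p)
    have h3 : cc gs gt A ν p = gt p ^ (ν p).val *
        (if ν p = 1 then ∏ q ∈ A \ W, gs q p else ∏ q ∈ W, gs q p) := by
      unfold cc
      exact congrArg (fun z => gt p ^ (ν p).val * z) h2
    rw [h3]
    by_cases h : (p : Pr) ∈ W
    · have h5 : ν p = 1 := if_pos h
      have hval1 : ((1 : ZMod 2)).val = 1 := rfl
      rw [if_pos h, if_pos h5, h5, hval1, pow_one]
    · have h5 : ν p = 0 := if_neg h
      have h6 : ν p ≠ 1 := by rw [h5]; decide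
      have hval0 : ((0 : ZMod 2)).val = 0 := rfl
      rw [if_neg h, if_neg h6, h5, hval0, pow_zero, one_mul]
  have hker : ν ∈ Kn gs gt A := by
    unfold Kn
    rw [mem_filter]
    refine ⟨mem_univ _, fun p => ?_⟩
    rw [hcc]
    by_cases hp : (p : Pr) ∈ W
    · rw [if_pos hp]
      exact hc1 p hp
    · rw [if_neg hp]
      exact hc2 p (mem_sdiff.mpr ⟨p.2, hp⟩)
  have h0 : (0 : A → ZMod 2) ∈ Kn gs gt A := by
    unfold Kn
    rw [mem_filter]
    refine ⟨mem_univ _, fun p => ?_⟩
    unfold cc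
    simp
  have h1 : XX gs gt A = 1 := hA
  unfold XX at h1
  obtain ⟨μ, hμ⟩ := Finset.card_eq_one.mp h1
  rw [hμ, mem_singleton] at hker h0
  by_contra hne
  obtain ⟨p, hp⟩ := Finset.nonempty_iff_ne_empty.mpr hne
  have h4 : ν ⟨p, hV hp⟩ = 0 := by
    rw [hker, ← h0]
    rfl
  rw [hν] at h4
  simp only [if_pos hp] at h4
  exact absurd h4 (by decide)

end Pool.Agent.Y259.PP
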